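import Mathlib

/-!
# Elements of order two in the closures of cyclic automorphism groups of the rational Urysohn space
-/

set_option autoImplicit false
set_option linter.style.haveILetI false

namespace Pool.Agent.Results.MP_30c7ca_gt.OrderTwo

open Set UniformSpace

/-- `Q` is the rational Urysohn space: the Fraisse limit of the finite metric spaces with rational
distances. -/
structure IsRatUrysohn (Q : Type) [MetricSpace Q] : Prop where
  countable : Countable Q
  rational : ∀ x y : Q, ∃ q : ℚ, dist x y = q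
  universal : ∀ (E : Type) [Finite E] [MetricSpace E], (∀ x y : E, ∃ q : ℚ, dist x y = q) →
    ∃ φ : E → Q, Isometry φ
  homogeneous : ∀ (F : Finset Q) (φ : F → Q), Isometry φ → ∃ Φ : Q ≃ᵢ Q, ∀ x : F, Φ x = φ x

variable {Q : Type} [MetricSpace Q]

/-- The powers of `σ` permute the points of `Q` in one infinite cycle. -/
def IsCyclicAut (σ : Q ≃ᵢ Q) : Prop := ∀ x y : Q, ∃! n : ℤ, (σ ^ n) x = y

/-- The extension of an isometry of `Q` to the completion of `Q`. -/
noncomputable def hat (σ : Q ≃ᵢ Q) : Completion Q ≃ᵢ Completion Q where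
  toFun := Completion.map σ
  invFun := Completion.map σ.symm
  left_inv := by
    intro x
    have h := congrFun (Completion.map_comp σ.symm.isometry.uniformContinuous
      σ.isometry.uniformContinuous) x
    rw [Function.comp_apply] at h
    rw [h]
    have h2 : (σ.symm ∘ σ : Q → Q) = id := funext fun y => σ.symm_apply_apply y
    rw [h2, Completion.map_id]
    rfl
  right_inv := by
    intro x
    have h := congrFun (Completion.map_comp σ.isometry.uniformContinuous
      σ.symm.isometry.uniformContinuous) x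
    rw [Function.comp_apply] at h
    rw [h]
    have h2 : (σ ∘ σ.symm : Q → Q) = id := funext fun y => σ.apply_symm_apply y
    rw [h2, Completion.map_id]
    rfl
  isometry_toFun := σ.isometry.completion_map

/-- The topology of pointwise convergence on the isometry group. -/
abbrev pw (U : Type) [MetricSpace U] : TopologicalSpace (U ≃ᵢ U) :=
  TopologicalSpace.induced (fun g : U ≃ᵢ U => (g : U → U)) inferInstance

/-- The closure of the group generated by the extension of `σ` in the isometry group of the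
completion, with the topology of pointwise convergence. -/
noncomputable def G (σ : Q ≃ᵢ Q) : Set (Completion Q ≃ᵢ Completion Q) :=
  @closure _ (pw (Completion Q)) (Subgroup.zpowers (hat σ))

/-- the metric of a one-point extension -/
noncomputable def eD {F : Finset Q} (g : Q → ℚ) : Option F → Option F → ℝ
  | none, none => 0
  | none, some x => g x
  | some x, none => g x
  | some x, some y => dist x y

/-- the one-point extension -/
@[reducible] noncomputable def eM {F : Finset Q} {g : Q → ℚ} (h0 : ∀ x ∈ F, 0 < g x)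
    (h1 : ∀ x ∈ F, ∀ y ∈ F, dist x y ≤ g x + g y) (h2 : ∀ x ∈ F, ∀ y ∈ F, (g x : ℝ) ≤ dist x y + g y) :
    MetricSpace (Option F) where
  dist := eD g
  dist_self := by rintro (_ | x) <;> simp [eD]
  dist_comm := by rintro (_ | x) (_ | y) <;> simp [eD, dist_comm]
  dist_triangle := by
    rintro (_ | x) (_ | y) (_ | z)
    · simp [eD]
    · simp [eD]
    · simp only [eD]
      have := h0 y y.2
      have : (0 : ℝ) < g y := by exact_mod_cast this
      linarith
    · simp only [eD]
      have := h2 z z.2 y y.2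
      rw [dist_comm] at this
      change (g z : ℝ) ≤ g y + dist (y : Q) z
      linarith
    · simp only [eD]; linarith
    · simp only [eD]
      exact h1 x x.2 z z.2
    · simp only [eD]
      exact h2 x x.2 y y.2
    · exact dist_triangle (x : Q) y z
  eq_of_dist_eq_zero := by
    rintro (_ | x) (_ | y) h
    · rfl
    · have := h0 y y.2
      have h' : (g y : ℝ) = 0 := h
      have : (0 : ℝ) < g y := by exact_mod_cast this
      linarith
    · have := h0 x x.2
      have h' : (g x : ℝ) = 0 := h
      have : (0 : ℝ) < g x := by exact_mod_cast this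
      linarith
    · have h' : dist (x : Q) y = 0 := h
      rw [Subtype.ext (dist_eq_zero.1 h')]

/-- The extension property. -/
theorem extend (hQ : IsRatUrysohn Q) (F : Finset Q) (g : Q → ℚ) (h0 : ∀ x ∈ F, 0 < g x)
    (h1 : ∀ x ∈ F, ∀ y ∈ F, dist x y ≤ g x + g y)
    (h2 : ∀ x ∈ F, ∀ y ∈ F, (g x : ℝ) ≤ dist x y + g y) : ∃ e : Q, ∀ x ∈ F, dist e x = g x := by
  classical
  letI := eM h0 h1 h2
  obtain ⟨φ, hφ⟩ := hQ.universal (Option F) (by
    rintro (_ | x) (_ | y)
    · exact ⟨0, by simp⟩
    · exact ⟨g y, rfl⟩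
    · exact ⟨g x, rfl⟩
    · exact hQ.rational x y)
  let F' : Finset Q := F.attach.image fun x => φ (some x)
  have hinj : Function.Injective φ := hφ.injective
  have hpre : ∀ z : F', ∃ x : F, φ (some x) = z := by
    rintro ⟨z, hz⟩
    obtain ⟨x, -, hx⟩ := Finset.mem_image.1 hz
    exact ⟨x, hx⟩
  choose ψ hψ using hpre
  obtain ⟨Φ, hΦ⟩ := hQ.homogeneous F' (fun z => (ψ z : Q)) (by
    refine Isometry.of_dist_eq fun z w => ?_
    have h3 : dist (φ (some (ψ z))) (φ (some (ψ w))) = dist (some (ψ z)) (some (ψ w)) :=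
      hφ.dist_eq _ _
    rw [hψ, hψ] at h3
    exact h3.symm)
  refine ⟨Φ (φ none), fun x hx => ?_⟩
  have hz : φ (some ⟨x, hx⟩) ∈ F' := Finset.mem_image.2 ⟨⟨x, hx⟩, Finset.mem_attach _ _, rfl⟩
  have h3 : Φ (φ (some ⟨x, hx⟩)) = x := by
    have h4 := hΦ ⟨_, hz⟩
    have h5 := hψ ⟨_, hz⟩
    have h6 : ψ ⟨_, hz⟩ = ⟨x, hx⟩ := Option.some.inj (hinj h5)
    rw [h6] at h4
    exact h4
  calc dist (Φ (φ none)) x = dist (Φ (φ none)) (Φ (φ (some ⟨x, hx⟩))) := by rw [h3]
    _ = dist (φ none) (φ (some ⟨x, hx⟩)) := Φ.dist_eq _ _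
    _ = dist (none : Option F) (some ⟨x, hx⟩) := hφ.dist_eq _ _
    _ = g x := rfl

/-! ### The length function -/

/-- the length function -/
noncomputable def len (σ : Q ≃ᵢ Q) (x : Q) (n : ℤ) : ℝ := dist x ((σ ^ n) x)

variable {σ : Q ≃ᵢ Q} {x₀ : Q}

theorem len_sub (m n : ℤ) : dist ((σ ^ m) x₀) ((σ ^ n) x₀) = len σ x₀ (n - m) := by
  have h1 : (σ ^ n) x₀ = (σ ^ m) ((σ ^ (n - m)) x₀) := by
    rw [← IsometryEquiv.mul_apply, ← zpow_add]
    congr 2
    ring
  rw [h1, (σ ^ m).dist_eq]
  rfl

theorem len_neg (n : ℤ) : len σ x₀ (-n) = len σ x₀ n := by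
  have h := len_sub (σ := σ) (x₀ := x₀) n 0
  rw [zero_sub] at h
  rw [← h, dist_comm]
  rfl

theorem len_zero : len σ x₀ 0 = 0 := by simp [len]

theorem len_nonneg (n : ℤ) : 0 ≤ len σ x₀ n := dist_nonneg

theorem len_add (m n : ℤ) : len σ x₀ (m + n) ≤ len σ x₀ m + len σ x₀ n := by
  have h1 : dist ((σ ^ m) x₀) ((σ ^ (m + n)) x₀) = len σ x₀ n := by
    rw [len_sub]; congr 1; ring
  calc len σ x₀ (m + n) = dist x₀ ((σ ^ (m + n)) x₀) := rfl
    _ ≤ dist x₀ ((σ ^ m) x₀) + dist ((σ ^ m) x₀) ((σ ^ (m + n)) x₀) := dist_triangle _ _ _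
    _ = _ := by rw [h1]; rfl

theorem len_rat (hQ : IsRatUrysohn Q) (n : ℤ) : ∃ q : ℚ, len σ x₀ n = q := hQ.rational _ _

theorem len_eq_zero (hσ : IsCyclicAut σ) {n : ℤ} (h : len σ x₀ n = 0) : n = 0 := by
  have h1 : x₀ = (σ ^ n) x₀ := dist_eq_zero.1 h
  obtain ⟨k, -, hk⟩ := hσ x₀ x₀
  rw [hk n h1.symm, hk 0 (by simp)]

theorem extendZ (hQ : IsRatUrysohn Q) (hσ : IsCyclicAut σ) (S : Finset ℤ) (g : ℤ → ℚ)
    (h0 : ∀ m ∈ S, 0 < g m) (h1 : ∀ m ∈ S, ∀ n ∈ S, len σ x₀ (m - n) ≤ g m + g n)
    (h2 : ∀ m ∈ S, ∀ n ∈ S, (g m : ℝ) ≤ len σ x₀ (m - n) + g n) :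
    ∃ e : ℤ, ∀ m ∈ S, len σ x₀ (e - m) = g m := by
  classical
  have hex : ∀ y : Q, ∃ n : ℤ, (σ ^ n) x₀ = y := fun y => (hσ x₀ y).exists
  choose N hN using hex
  have hNp : ∀ m : ℤ, N ((σ ^ m) x₀) = m := by
    intro m
    obtain ⟨k, -, hk⟩ := hσ x₀ ((σ ^ m) x₀)
    rw [hk _ (hN _), hk m rfl]
  have hd : ∀ m n : ℤ, dist ((σ ^ m) x₀) ((σ ^ n) x₀) = len σ x₀ (m - n) := by
    intro m n
    rw [dist_comm, len_sub]
  obtain ⟨e, he⟩ := extend hQ (S.image fun m => (σ ^ m) x₀) (fun y => g (N y)) (by
      intro y hy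
      obtain ⟨m, hm, rfl⟩ := Finset.mem_image.1 hy
      simp only [hNp]
      exact h0 m hm) (by
      intro y hy z hz
      obtain ⟨m, hm, rfl⟩ := Finset.mem_image.1 hy
      obtain ⟨n, hn, rfl⟩ := Finset.mem_image.1 hz
      simp only [hNp]
      rw [hd]
      exact h1 m hm n hn) (by
      intro y hy z hz
      obtain ⟨m, hm, rfl⟩ := Finset.mem_image.1 hy
      obtain ⟨n, hn, rfl⟩ := Finset.mem_image.1 hz
      simp only [hNp]
      rw [hd]
      exact h2 m hm n hn)
  refine ⟨N e, fun m hm => ?_⟩
  have h3 := he _ (Finset.mem_image_of_mem _ hm)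
  simp only [hNp] at h3
  rw [← h3, ← hd, hN]

/-- Halving step. -/
theorem halve (hQ : IsRatUrysohn Q) (hσ : IsCyclicAut σ) (b : ℤ) :
    ∃ e : ℤ, len σ x₀ (e - b) ≤ 3 / 4 * len σ x₀ (2 * b) ∧
      len σ x₀ (2 * e) ≤ 1 / 2 * len σ x₀ (2 * b) := by
  classical
  rcases eq_or_lt_of_le (len_nonneg (σ := σ) (x₀ := x₀) (2 * b)) with h0 | hpos
  · refine ⟨b, ?_, ?_⟩
    · rw [sub_self, len_zero, ← h0]; norm_num
    · rw [← h0]; norm_num
  obtain ⟨D, hD⟩ := len_rat (σ := σ) (x₀ := x₀) hQ (2 * b)
  rw [hD] at hpos ⊢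
  have key : ∀ (k : ℕ) (e : ℤ), len σ x₀ (2 * e) ≤ D / 2 → len σ x₀ (e + b) = len σ x₀ (e - b) →
      len σ x₀ (e - b) ≤ 3 / 4 * D + k * (D / 4) →
      ∃ e' : ℤ, len σ x₀ (e' - b) ≤ 3 / 4 * D ∧ len σ x₀ (2 * e') ≤ 1 / 2 * D := by
    intro k
    induction k with
    | zero =>
      intro e h1 _ h3
      exact ⟨e, by simpa using h3, by linarith⟩
    | succ k ih =>
      intro e h1 h2 h3
      by_cases hle : len σ x₀ (e - b) ≤ 3 / 4 * D
      · exact ⟨e, hle, by linarith⟩
      push Not at hle
      obtain ⟨d, hd⟩ := len_rat (σ := σ) (x₀ := x₀) hQ (e - b)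
      rw [hd] at h2 hle h3
      have heb : e ≠ b := by
        rintro rfl
        rw [sub_self, len_zero] at hd
        rw [← hd] at hle
        linarith
      have heb' : e ≠ -b := by
        rintro rfl
        rw [neg_add_cancel, len_zero] at h2
        rw [← h2] at hle
        linarith
      have heb'' : -e ≠ b := fun h => heb' (by rw [← h, neg_neg])
      have heb''' : -e ≠ -b := fun h => heb (neg_injective h)
      let g : ℤ → ℚ := fun x => if x = b ∨ x = -b then d - D / 4 else D / 4
      have g1 : g e = D / 4 := if_neg (by tauto)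
      have g2 : g (-e) = D / 4 := if_neg (by tauto)
      have g3 : g b = d - D / 4 := if_pos (Or.inl rfl)
      have g4 : g (-b) = d - D / 4 := if_pos (Or.inr rfl)
      -- the distances
      have l0 : len σ x₀ 0 = 0 := len_zero
      have l1 : len σ x₀ (e - -e) ≤ D / 2 := by rw [show e - -e = 2 * e by ring]; exact h1
      have l1' : len σ x₀ (-e - e) ≤ D / 2 := by
        rw [show -e - e = -(2 * e) by ring, len_neg]; exact h1
      have l2 : len σ x₀ (b - -b) = D := by rw [show b - -b = 2 * b by ring]; exact hD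
      have l2' : len σ x₀ (-b - b) = D := by
        rw [show -b - b = -(2 * b) by ring, len_neg]; exact hD
      have l3 : len σ x₀ (e - b) = d := hd
      have l4 : len σ x₀ (b - e) = d := by rw [show b - e = -(e - b) by ring, len_neg]; exact hd
      have l5 : len σ x₀ (e - -b) = d := by rw [sub_neg_eq_add]; exact h2
      have l6 : len σ x₀ (-b - e) = d := by rw [show -b - e = -(e + b) by ring, len_neg]; exact h2
      have l7 : len σ x₀ (-e - b) = d := by rw [show -e - b = -(e + b) by ring, len_neg]; exact h2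
      have l8 : len σ x₀ (b - -e) = d := by rw [show b - -e = e + b by ring]; exact h2
      have l9 : len σ x₀ (-e - -b) = d := by
        rw [show -e - -b = -(e - b) by ring, len_neg]; exact hd
      have l10 : len σ x₀ (-b - -e) = d := by rw [show -b - -e = e - b by ring]; exact hd
      have n1 := len_nonneg (σ := σ) (x₀ := x₀) (e - -e)
      have n2 := len_nonneg (σ := σ) (x₀ := x₀) (-e - e)
      have hposQ : (0 : ℚ) < D := by exact_mod_cast hpos
      have hleQ : 3 / 4 * D < d := by
        have : (((3 / 4 * D : ℚ)) : ℝ) < d := by push_cast; linarith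
        exact_mod_cast this
      obtain ⟨e', he'⟩ := extendZ (x₀ := x₀) hQ hσ {e, -e, b, -b} g (by
          intro m hm
          simp only [Finset.mem_insert, Finset.mem_singleton] at hm
          rcases hm with rfl | rfl | rfl | rfl
          · rw [g1]; linarith
          · rw [g2]; linarith
          · rw [g3]; linarith
          · rw [g4]; linarith) (by
          intro m hm n hn
          simp only [Finset.mem_insert, Finset.mem_singleton] at hm hn
          rcases hm with rfl | rfl | rfl | rfl <;> rcases hn with rfl | rfl | rfl | rfl <;>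
            simp only [g1, g2, g3, g4, sub_self, l0, l2, l2', l3, l4, l5, l6, l7, l8, l9, l10] <;>
            push_cast <;> linarith) (by
          intro m hm n hn
          simp only [Finset.mem_insert, Finset.mem_singleton] at hm hn
          rcases hm with rfl | rfl | rfl | rfl <;> rcases hn with rfl | rfl | rfl | rfl <;>
            simp only [g1, g2, g3, g4, sub_self, l0, l2, l2', l3, l4, l5, l6, l7, l8, l9, l10] <;>
            push_cast <;> linarith)
      have r1 := he' e (by simp)
      have r2 := he' (-e) (by simp)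
      have r3 := he' b (by simp)
      have r4 := he' (-b) (by simp)
      rw [g1] at r1
      rw [g2] at r2
      rw [g3] at r3
      rw [g4] at r4
      refine ih e' ?_ ?_ ?_
      · have := len_add (σ := σ) (x₀ := x₀) (e' - e) (e' - -e)
        rw [show e' - e + (e' - -e) = 2 * e' by ring, r1, r2] at this
        push_cast at this
        linarith
      · rw [← sub_neg_eq_add, r4, r3]
      · rw [r3]
        push_cast
        push_cast at h3
        linarith
  have hb := len_nonneg (σ := σ) (x₀ := x₀) b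
  obtain ⟨k, hk⟩ := exists_nat_gt (len σ x₀ b / (D / 4))
  rw [div_lt_iff₀ (by linarith)] at hk
  refine key k 0 ?_ ?_ ?_
  · rw [mul_zero, len_zero]; linarith
  · rw [zero_add, zero_sub, len_neg]
  · rw [zero_sub, len_neg]; linarith

/-- Far points with small doubles. -/
theorem far (hQ : IsRatUrysohn Q) (hσ : IsCyclicAut σ) {η : ℚ} (hη : 0 < η) (k : ℕ) :
    ∃ e : ℤ, len σ x₀ (2 * e) ≤ 2 * η ∧ len σ x₀ e = k * η := by
  have hηR : (0 : ℝ) < η := by exact_mod_cast hη
  induction k with
  | zero => exact ⟨0, by rw [mul_zero, len_zero]; linarith, by rw [len_zero]; simp⟩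
  | succ k ih =>
    obtain ⟨e, h1, h2⟩ := ih
    let g : ℤ → ℚ := fun x => if x = 0 then k * η + η else η
    have g0 : g 0 = k * η + η := if_pos rfl
    have ge : g e = η := by
      by_cases he : e = 0
      · subst he
        rw [len_zero] at h2
        have h3 : (k : ℝ) = 0 := by
          rcases mul_eq_zero.1 h2.symm with h | h
          · exact h
          · exact absurd h hηR.ne'
        have h4 : (k : ℚ) = 0 := by exact_mod_cast h3
        rw [g0, h4]; ring
      · exact if_neg he
    have gne : g (-e) = η := by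
      by_cases he : e = 0
      · subst he
        rw [neg_zero]; exact ge
      · exact if_neg (by simpa using he)
    have hkη : (0 : ℝ) ≤ k * η := by positivity
    have hkη' : (0 : ℚ) ≤ k * η := by positivity
    have l0 : len σ x₀ 0 = 0 := len_zero
    have l1 : len σ x₀ (e - -e) ≤ 2 * η := by rw [show e - -e = 2 * e by ring]; exact h1
    have l1' : len σ x₀ (-e - e) ≤ 2 * η := by
      rw [show -e - e = -(2 * e) by ring, len_neg]; exact h1
    have l2 : len σ x₀ (0 - e) = k * η := by rw [zero_sub, len_neg]; exact h2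
    have l3 : len σ x₀ (0 - -e) = k * η := by rw [zero_sub, neg_neg]; exact h2
    have l4 : len σ x₀ (e - 0) = k * η := by rw [sub_zero]; exact h2
    have l5 : len σ x₀ (-e - 0) = k * η := by rw [sub_zero, len_neg]; exact h2
    have n1 := len_nonneg (σ := σ) (x₀ := x₀) (e - -e)
    have n2 := len_nonneg (σ := σ) (x₀ := x₀) (-e - e)
    obtain ⟨e', he'⟩ := extendZ (x₀ := x₀) hQ hσ {0, e, -e} g (by
        intro m hm
        simp only [Finset.mem_insert, Finset.mem_singleton] at hm
        rcases hm with rfl | rfl | rfl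
        · rw [g0]; linarith
        · rw [ge]; linarith
        · rw [gne]; linarith) (by
        intro m hm n hn
        simp only [Finset.mem_insert, Finset.mem_singleton] at hm hn
        rcases hm with rfl | rfl | rfl <;> rcases hn with rfl | rfl | rfl <;>
          simp only [g0, ge, gne, sub_self, l0, l2, l3, l4, l5] <;>
          push_cast <;> linarith) (by
        intro m hm n hn
        simp only [Finset.mem_insert, Finset.mem_singleton] at hm hn
        rcases hm with rfl | rfl | rfl <;> rcases hn with rfl | rfl | rfl <;>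
          simp only [g0, ge, gne, sub_self, l0, l2, l3, l4, l5] <;>
          push_cast <;> linarith)
    have r0 := he' 0 (by simp)
    have r1 := he' e (by simp)
    have r2 := he' (-e) (by simp)
    rw [g0, sub_zero] at r0
    rw [ge] at r1
    rw [gne] at r2
    refine ⟨e', ?_, ?_⟩
    · have := len_add (σ := σ) (x₀ := x₀) (e' - e) (e' - -e)
      rw [show e' - e + (e' - -e) = 2 * e' by ring, r1, r2] at this
      linarith
    · rw [r0]; push_cast; ring

/-! ### The limit -/

theorem hat_coe (σ : Q ≃ᵢ Q) (x : Q) : hat σ (x : Completion Q) = ((σ x : Q) : Completion Q) :=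
  Completion.map_coe σ.isometry.uniformContinuous x

/-- the extension as a homomorphism -/
noncomputable def hatHom : (Q ≃ᵢ Q) →* (Completion Q ≃ᵢ Completion Q) where
  toFun := hat
  map_one' := by
    ext x
    change Completion.map (1 : Q ≃ᵢ Q) x = x
    have : ((1 : Q ≃ᵢ Q) : Q → Q) = id := rfl
    rw [this, Completion.map_id]
    rfl
  map_mul' := fun σ τ => by
    ext x
    change Completion.map (σ * τ : Q ≃ᵢ Q) x = Completion.map σ (Completion.map τ x)
    have h := congrFun (Completion.map_comp σ.isometry.uniformContinuous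
      τ.isometry.uniformContinuous) x
    rw [Function.comp_apply] at h
    rw [h]
    rfl

theorem hat_zpow_coe (σ : Q ≃ᵢ Q) (n : ℤ) (x : Q) :
    (hat σ ^ n) (x : Completion Q) = (((σ ^ n) x : Q) : Completion Q) := by
  have h : hat σ ^ n = hat (σ ^ n) := (map_zpow hatHom σ n).symm
  rw [h, hat_coe]

theorem displacement (hσ : IsCyclicAut σ) (x₀ : Q) (m n : ℤ) (x : Completion Q) :
    dist ((hat σ ^ m) x) ((hat σ ^ n) x) = len σ x₀ (m - n) := by
  induction x using Completion.induction_on with
  | hp =>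
    exact isClosed_eq (((hat σ ^ m).continuous).dist ((hat σ ^ n).continuous)) continuous_const
  | ih x =>
    rw [hat_zpow_coe, hat_zpow_coe, Completion.dist_eq]
    obtain ⟨j, hj, -⟩ := hσ x₀ x
    rw [← hj, ← IsometryEquiv.mul_apply, ← IsometryEquiv.mul_apply, ← zpow_add, ← zpow_add,
      dist_comm, len_sub]
    congr 1
    ring

/-- For every cyclic automorphism of the rational Urysohn space, the closure of the group generated
by its extension contains an element of order two. -/
theorem result (Q : Type) [MetricSpace Q] (hQ : IsRatUrysohn Q) (σ : Q ≃ᵢ Q)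
    (hσ : IsCyclicAut σ) : ∃ h ∈ G σ, h ≠ 1 ∧ h * h = 1 := by
  obtain ⟨φ, -⟩ := hQ.universal Unit (fun _ _ => ⟨0, by simp⟩)
  let x₀ : Q := φ ()
  obtain ⟨b₀, hb1, hb2⟩ := far (x₀ := x₀) hQ hσ (η := 1 / 6) (by norm_num) 6
  norm_num at hb1 hb2
  choose E hE1 hE2 using fun b => halve (x₀ := x₀) hQ hσ b
  let b : ℕ → ℤ := fun k => E^[k] b₀
  have hbs : ∀ k, b (k + 1) = E (b k) := fun k => Function.iterate_succ_apply' E k _
  have hb0 : b 0 = b₀ := rfl
  have hl : ∀ k, len σ x₀ (2 * b k) ≤ 1 / 3 * (1 / 2) ^ k := by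
    intro k
    induction k with
    | zero => rw [hb0]; simpa using hb1
    | succ k ih =>
      rw [hbs]
      have := hE2 (b k)
      rw [pow_succ]
      linarith
  have hstep : ∀ (x : Completion Q) (k : ℕ),
      dist ((hat σ ^ b k) x) ((hat σ ^ b (k + 1)) x) ≤ 1 / 4 * (1 / 2) ^ k := by
    intro x k
    rw [displacement hσ x₀, hbs]
    have h1 := hE1 (b k)
    have h2 := hl k
    rw [show b k - E (b k) = -(E (b k) - b k) by ring, len_neg]
    linarith
  have hlim : ∀ x : Completion Q, ∃ y, Filter.Tendsto (fun k => (hat σ ^ b k) x) Filter.atTop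
      (nhds y) := fun x =>
    cauchySeq_tendsto_of_complete (cauchySeq_of_le_geometric _ _ (by norm_num) (hstep x))
  choose h hh using hlim
  have hiso : Isometry h := by
    refine Isometry.of_dist_eq fun x y => ?_
    have h1 := (hh x).dist (hh y)
    have h2 : (fun k => dist ((hat σ ^ b k) x) ((hat σ ^ b k) y)) = fun _ => dist x y :=
      funext fun k => (hat σ ^ b k).dist_eq x y
    rw [h2] at h1
    exact (tendsto_nhds_unique h1 tendsto_const_nhds)
  have hl0 : Filter.Tendsto (fun k => len σ x₀ (2 * b k)) Filter.atTop (nhds 0) := by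
    refine squeeze_zero (fun k => len_nonneg _) hl ?_
    have := (tendsto_pow_atTop_nhds_zero_of_lt_one (r := (1 / 2 : ℝ)) (by norm_num)
      (by norm_num)).const_mul (1 / 3)
    simpa using this
  have hinv : ∀ x, h (h x) = x := by
    intro x
    refine tendsto_nhds_unique (hh (h x)) ?_
    rw [tendsto_iff_dist_tendsto_zero]
    have h1 : Filter.Tendsto (fun k => dist (h x) ((hat σ ^ b k) x) + len σ x₀ (2 * b k))
        Filter.atTop (nhds 0) := by
      have h2 : Filter.Tendsto (fun k => dist (h x) ((hat σ ^ b k) x)) Filter.atTop (nhds 0) := by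
        have := (tendsto_iff_dist_tendsto_zero.1 (hh x))
        simpa [dist_comm] using this
      simpa using h2.add hl0
    refine squeeze_zero (fun k => dist_nonneg) (fun k => ?_) h1
    have h2 : dist ((hat σ ^ b k) (h x)) ((hat σ ^ b k) ((hat σ ^ b k) x)) =
        dist (h x) ((hat σ ^ b k) x) := (hat σ ^ b k).dist_eq _ _
    have h3 : dist ((hat σ ^ b k) ((hat σ ^ b k) x)) x = len σ x₀ (2 * b k) := by
      have := displacement hσ x₀ (2 * b k) 0 x
      rw [sub_zero, zpow_zero] at this
      rw [← this, two_mul, zpow_add]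
      rfl
    rw [← h2, ← h3]
    exact dist_triangle _ _ _
  let H : Completion Q ≃ᵢ Completion Q := IsometryEquiv.mk' h h hinv hiso
  refine ⟨H, ?_, fun hH => ?_, ?_⟩
  · letI := pw (Completion Q)
    refine mem_closure_of_tendsto (f := fun k => hat σ ^ b k) (b := Filter.atTop) ?_
      (Filter.Eventually.of_forall fun k => ?_)
    · rw [nhds_induced, Filter.tendsto_comap_iff, tendsto_pi_nhds]
      exact hh
    · exact Subgroup.zpow_mem_zpowers _ _
  · have h1 := dist_le_of_le_geometric_of_tendsto₀ (1 / 2) (1 / 4) (by norm_num)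
      (hstep (x₀ : Completion Q)) (hh (x₀ : Completion Q))
    have h2 : h (x₀ : Completion Q) = x₀ := by
      have := congrArg (fun g : Completion Q ≃ᵢ Completion Q => g (x₀ : Completion Q)) hH
      exact this
    have h3 := displacement hσ x₀ b₀ 0 (x₀ : Completion Q)
    rw [sub_zero, hb2, zpow_zero] at h3
    rw [h2, hb0] at h1
    have h4 : dist ((hat σ ^ b₀) (x₀ : Completion Q)) (x₀ : Completion Q) = 1 := h3
    rw [h4] at h1
    norm_num at h1
  · ext x
    exact hinv x

end Pool.Agent.Results.MP_30c7ca_gt.OrderTwo
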